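import Mathlib

/-!
MP_b5825f_co, Q1: a jump-critical poset that contains a three-element chain.

The poset has the elements `0, …, 6` and the covering pairs `1 < 3`, `0 < 4`, `2 < 4`, `1 < 5`,
`2 < 5`, `0 < 6`, `3 < 6`, `5 < 6`. Its jump number is `3`, and every subposet with six elements has
jump number at most `2`. It is neither a disjoint sum nor an ordinal sum.
-/

set_option autoImplicit false

namespace Pool.Agent.Results.MP_b5825f_co.LongCritical

section defs

variable {P : Type} [Fintype P] [DecidableEq P] [PartialOrder P]

/-- `L` is a linear extension of the subposet `S`: it lists the elements of `S` without repetition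
and no element is listed before a smaller one. -/
def IsLinearExtension (S : Finset P) (L : List P) : Prop :=
  L.Nodup ∧ (∀ x, x ∈ L ↔ x ∈ S) ∧ L.Pairwise (fun a b => ¬ b < a)

open Classical in
/-- The number of the pairs of consecutive entries `x, y` with `¬ x < y`. -/
noncomputable def jumps : List P → ℕ
  | [] => 0
  | [_] => 0
  | a :: b :: l => (if a < b then 0 else 1) + jumps (b :: l)

/-- The jump number of the subposet `S`. -/
noncomputable def jumpNumber (S : Finset P) : ℕ :=
  sInf {k | ∃ L : List P, IsLinearExtension S L ∧ jumps L = k}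

variable (P)

/-- `P` is jump-critical. -/
def JumpCritical : Prop :=
  1 ≤ jumpNumber (Finset.univ : Finset P) ∧
    ∀ x : P, jumpNumber (Finset.univ.erase x) < jumpNumber (Finset.univ : Finset P)

end defs

/-- The ground set of the example. -/
inductive Q
  | q0 | q1 | q2 | q3 | q4 | q5 | q6
  deriving DecidableEq

open Q

instance : Fintype Q := ⟨{q0, q1, q2, q3, q4, q5, q6}, by intro x; cases x <;> decide⟩

/-- The strict order of the example. -/
def r : Q → Q → Bool
  | q1, q3 => true
  | q0, q4 => true
  | q2, q4 => true
  | q1, q5 => true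
  | q2, q5 => true
  | q0, q6 => true
  | q1, q6 => true
  | q2, q6 => true
  | q3, q6 => true
  | q5, q6 => true
  | _, _ => false

instance : PartialOrder Q where
  le a b := a = b ∨ r a b = true
  lt a b := r a b = true
  le_refl a := Or.inl rfl
  le_trans := by decide
  lt_iff_le_not_ge := by decide
  le_antisymm := by decide

/-- the same with the computable order -/
def jumpsB : List Q → ℕ
  | [] => 0
  | [_] => 0
  | a :: b :: l => (bif r a b then 0 else 1) + jumpsB (b :: l)

theorem jumps_eq : ∀ L : List Q, jumps L = jumpsB L
  | [] => rfl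
  | [_] => rfl
  | a :: b :: l => by
    have h := jumps_eq (b :: l)
    unfold jumps jumpsB
    rw [h]
    congr 1
    have hlt : (a < b) ↔ r a b = true := Iff.rfl
    by_cases hr : r a b = true
    · rw [if_pos (hlt.2 hr), hr]
      rfl
    · rw [if_neg (fun h' => hr (hlt.1 h'))]
      rw [Bool.not_eq_true] at hr
      rw [hr]
      rfl

/-- `check n rem last k`: every arrangement of `rem` after `last` has more than `k` jumps -/
def check : ℕ → List Q → Q → ℕ → Bool
  | 0, _, _, _ => false
  | n + 1, rem, last, k =>
    rem.all (fun x => rem.any (fun y => r y x) ||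
      (bif r last x then check n (rem.erase x) x k
        else (k == 0 || check n (rem.erase x) x (k - 1))))

theorem check_spec : ∀ (n : ℕ) (rem : List Q) (last : Q) (k : ℕ), check n rem last k = true →
    ∀ L : List Q, L.length = n → L.Perm rem → L.Pairwise (fun a b => ¬ b < a) →
      k < jumpsB (last :: L) := by
  intro n
  induction n with
  | zero => intro rem last k h; simp [check] at h
  | succ n ih =>
    intro rem last k h L hlen hperm hpw
    match L, hlen with
    | x :: L', hlen =>
      have hx : x ∈ rem := hperm.mem_iff.1 List.mem_cons_self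
      unfold check at h
      rw [List.all_eq_true] at h
      have h1 := h x hx
      have hany : rem.any (fun y => r y x) = false := by
        rw [List.any_eq_false]
        intro y hy
        have hy' : y ∈ x :: L' := hperm.mem_iff.2 hy
        rcases List.mem_cons.1 hy' with h2 | h2
        · subst h2
          have : ∀ q : Q, ¬ (r q q = true) := by decide
          exact this y
        · exact (List.pairwise_cons.1 hpw).1 y h2
      rw [hany, Bool.false_or] at h1
      have hperm' : L'.Perm (rem.erase x) := by
        have := hperm.erase x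
        rwa [List.erase_cons_head] at this
      have hlen' : L'.length = n := by simpa using hlen
      have hpw' := (List.pairwise_cons.1 hpw).2
      unfold jumpsB
      cases hr : r last x with
      | true =>
        rw [hr] at h1
        have := ih (rem.erase x) x k h1 L' hlen' hperm' hpw'
        simpa using this
      | false =>
        rw [hr] at h1
        simp only [cond_false, Bool.or_eq_true, beq_iff_eq] at h1
        rcases h1 with h1 | h1
        · subst h1
          simp
        · have := ih (rem.erase x) x (k - 1) h1 L' hlen' hperm' hpw'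
          simp only [cond_false]
          omega

theorem three_le (L : List Q) (hL : IsLinearExtension Finset.univ L) : 3 ≤ jumps L := by
  rw [jumps_eq]
  obtain ⟨hnd, hmem, hpw⟩ := hL
  have hperm : L.Perm [q0, q1, q2, q3, q4, q5, q6] := by
    rw [List.perm_ext_iff_of_nodup hnd (by decide)]
    intro a
    constructor
    · intro _
      cases a <;> decide
    · intro _
      exact (hmem a).2 (Finset.mem_univ a)
  have hlen : L.length = 7 := hperm.length_eq
  match L, hlen with
  | x :: L', hlen =>
    have hlen' : L'.length = 6 := by simpa using hlen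
    have hperm' : L'.Perm ([q0, q1, q2, q3, q4, q5, q6].erase x) := by
      have := hperm.erase x
      rwa [List.erase_cons_head] at this
    have hmin : ∀ y : Q, ¬ (r y x = true) := by
      intro y
      rcases List.mem_cons.1 ((hmem y).2 (Finset.mem_univ y)) with h2 | h2
      · subst h2
        have : ∀ q : Q, ¬ (r q q = true) := by decide
        exact this y
      · exact (List.pairwise_cons.1 hpw).1 y h2
    have hall : ∀ x : Q, (∀ y : Q, ¬ (r y x = true)) →
        check 6 ([q0, q1, q2, q3, q4, q5, q6].erase x) x 2 = true := by
      intro x hx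
      cases x
      · decide +kernel
      · decide +kernel
      · decide +kernel
      · exact absurd rfl (hx q1)
      · exact absurd rfl (hx q0)
      · exact absurd rfl (hx q1)
      · exact absurd rfl (hx q0)
    exact check_spec 6 _ x 2 (hall x hmin) L' hlen' hperm' (List.pairwise_cons.1 hpw).2

theorem jumpNumber_le (S : Finset Q) (L : List Q) (k : ℕ)
    (h : L.Nodup ∧ (∀ x : Q, x ∈ L ↔ x ∈ S) ∧ L.Pairwise (fun a b => ¬ (r b a = true)))
    (hk : jumpsB L ≤ k) : jumpNumber S ≤ k := by
  refine le_trans (Nat.sInf_le ⟨L, ⟨h.1, h.2.1, h.2.2⟩, rfl⟩) ?_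
  rw [jumps_eq]
  exact hk

theorem three_le_jumpNumber : 3 ≤ jumpNumber (Finset.univ : Finset Q) := by
  have hne : {k | ∃ L : List Q, IsLinearExtension Finset.univ L ∧ jumps L = k}.Nonempty := by
    refine ⟨_, [q0, q1, q2, q3, q4, q5, q6], ⟨by decide, ?_, ?_⟩, rfl⟩
    · intro x
      cases x <;> decide
    · have : List.Pairwise (fun a b => ¬ (r b a = true)) [q0, q1, q2, q3, q4, q5, q6] := by decide
      exact this
  obtain ⟨L, hL, hk⟩ := Nat.sInf_mem hne
  unfold jumpNumber
  rw [← hk]
  exact three_le L hL

theorem erase_le (x : Q) : jumpNumber (Finset.univ.erase x) ≤ 2 := by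
  cases x
  · exact jumpNumber_le _ [q2, q4, q1, q3, q5, q6] 2 (by decide) (by decide)
  · exact jumpNumber_le _ [q2, q5, q0, q4, q3, q6] 2 (by decide) (by decide)
  · exact jumpNumber_le _ [q0, q4, q1, q3, q5, q6] 2 (by decide) (by decide)
  · exact jumpNumber_le _ [q0, q2, q4, q1, q5, q6] 2 (by decide) (by decide)
  · exact jumpNumber_le _ [q0, q1, q3, q2, q5, q6] 2 (by decide) (by decide)
  · exact jumpNumber_le _ [q2, q0, q4, q1, q3, q6] 2 (by decide) (by decide)
  · exact jumpNumber_le _ [q1, q3, q2, q5, q0, q4] 2 (by decide) (by decide)

/-- There is a finite jump-critical poset that contains a chain `x < y < z`; moreover every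
nonempty proper subset of it has an element comparable, and an element incomparable, to some element
outside of it (it is neither a disjoint sum nor an ordinal sum). -/
theorem result : ∃ (P : Type) (_ : Fintype P) (_ : DecidableEq P) (_ : PartialOrder P),
    JumpCritical P ∧ (∃ x y z : P, x < y ∧ y < z) ∧
    ∀ S : Finset P, S.Nonempty → S ≠ Finset.univ →
      (∃ x y : P, x ∈ S ∧ y ∉ S ∧ (x < y ∨ y < x)) ∧
      (∃ x y : P, x ∈ S ∧ y ∉ S ∧ ¬ x < y ∧ ¬ y < x) := by
  refine ⟨Q, inferInstance, inferInstance, inferInstance, ⟨?_, ?_⟩, ⟨q1, q3, q6, ?_, ?_⟩, ?_⟩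
  · exact le_trans (by norm_num) three_le_jumpNumber
  · intro x
    exact lt_of_le_of_lt (erase_le x) three_le_jumpNumber
  · exact (rfl : r q1 q3 = true)
  · exact (rfl : r q3 q6 = true)
  · have key : ∀ S : Finset Q, S.Nonempty → S ≠ Finset.univ →
      (∃ x y : Q, x ∈ S ∧ y ∉ S ∧ (r x y = true ∨ r y x = true)) ∧
      (∃ x y : Q, x ∈ S ∧ y ∉ S ∧ ¬ (r x y = true) ∧ ¬ (r y x = true)) := by decide +kernel
    exact key

end Pool.Agent.Results.MP_b5825f_co.LongCritical
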